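import Mathlib
import Pool.Agent.H.MP_d24a2a_lc.Main

set_option autoImplicit false

namespace Pool.Agent.Results.MP_d24a2a_lc.Exists

open Pool.Agent.H.MP_9cfc50_lc Pool.Agent.H.MP_d24a2a_lc

theorem result (A : Type) [Finite A] (P : Set (Rule A)) (hP : UniRule P)
    (H : ∀ (n : ℕ) (c : Fin (n + 1) → A) (s : Fin (n + 1) → Bool), IsCycle P c s →
      Odd (negCount s) → InternalTriple P c s) : ∃ M : Set A, StableModel P M :=
  main P hP H

end Pool.Agent.Results.MP_d24a2a_lc.Exists
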